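import Pool.Agent.helper18.CR.J

set_option autoImplicit false

/-!
# Carmichael's conjecture for `n` divisible by the squares of most primes up to a power of its
largest prime factor (MP_5710e5_nt)
-/

namespace Pool.Agent.Results.MP_5710e5_nt.DenseSquares

open Finset

/-- There are `c > 0` and `κ < 1` such that Carmichael's assertion (there is `m ≠ n` with
`φ(m) = φ(n)`) holds for `n` in each of the following cases, where `P ≥ P₀` is any number such that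
`q ^ 2 ∣ n` for at most `ε * P / log P` of the primes `P < q ≤ 2 * P` (for instance the largest
prime `P` with `P ^ 2 ∣ n`):
(A) the sum of `1 / p` over the primes `p` with `R < p ≤ P ^ κ` and `p ^ 2 ∤ n` is at most `c`
(`R` arbitrary, `ε` and `P₀` depend on `R` only);
(B) `p ^ 2 ∣ n` for every prime `p ≤ P ^ κ` outside `D` (`D` a set of integers with convergent sum
of reciprocals, `ε` and `P₀` depend on `D` only);
(C) `p ∣ n` for every prime `p ≤ P ^ κ` (`ε` and `P₀` absolute).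
So for a counterexample `n` with `p ^ 2 ∣ n` for nearly all `p ≤ P ^ κ` (in the sense of (A)) a
positive proportion of the primes `P < q ≤ 2 * P` satisfy `q ^ 2 ∣ n`, for every `P ≥ P₀`. -/
theorem result : ∃ c κ : ℝ, 0 < c ∧ 0 < κ ∧ κ < 1 ∧
    (∀ R : ℕ, ∃ ε : ℝ, 0 < ε ∧ ∃ P₀ : ℕ, ∀ n P : ℕ, 0 < n → P₀ ≤ P →
      (((Ioc P (2 * P)).filter (fun q => q.Prime ∧ q ^ 2 ∣ n)).card : ℝ) ≤
        ε * (P / Real.log P) →
      ∑ p ∈ (Icc 1 P).filter (fun p => p.Prime ∧ R < p ∧ (p : ℝ) ≤ (P : ℝ) ^ κ ∧ ¬ p ^ 2 ∣ n),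
        (1 : ℝ) / p ≤ c →
      ∃ m : ℕ, m ≠ n ∧ m.totient = n.totient) ∧
    (∀ D : Set ℕ, Summable (D.indicator (fun p : ℕ => (1 : ℝ) / p)) →
      ∃ ε : ℝ, 0 < ε ∧ ∃ P₀ : ℕ, ∀ n P : ℕ, 0 < n → P₀ ≤ P →
        (((Ioc P (2 * P)).filter (fun q => q.Prime ∧ q ^ 2 ∣ n)).card : ℝ) ≤
          ε * (P / Real.log P) →
        (∀ p : ℕ, p.Prime → (p : ℝ) ≤ (P : ℝ) ^ κ → p ∉ D → p ^ 2 ∣ n) →
        ∃ m : ℕ, m ≠ n ∧ m.totient = n.totient) ∧
    (∃ ε : ℝ, 0 < ε ∧ ∃ P₀ : ℕ, ∀ n P : ℕ, 0 < n → P₀ ≤ P →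
      (((Ioc P (2 * P)).filter (fun q => q.Prime ∧ q ^ 2 ∣ n)).card : ℝ) ≤
        ε * (P / Real.log P) →
      (∀ p : ℕ, p.Prime → (p : ℝ) ≤ (P : ℝ) ^ κ → p ∣ n) →
      ∃ m : ℕ, m ≠ n ∧ m.totient = n.totient) := by
  obtain ⟨c, κ, hc, hκ0, hκ, h⟩ := Pool.Agent.helper18.CR.main
  have hB := fun D hD => Pool.Agent.helper18.CR.main_set hc h D hD
  refine ⟨c, κ, hc, hκ0, hκ, h, hB, Pool.Agent.helper18.CR.main_initial (hB ∅ ?_)⟩
  simp only [Set.indicator_empty]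
  exact summable_zero

end Pool.Agent.Results.MP_5710e5_nt.DenseSquares
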