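import Pool.Agent.helper20.CF.Main
import Pool.Agent.helper20.CF.Neg

/-!
# The analogue of Carmichael's totient conjecture in `F[X]` (MP_5710e5_nt)

For a finite field `F` put `phi f = |(F[X]/(f))ˣ|`. The assertion that every monic `f` has a monic
`g ≠ f` with `phi g = phi f` is true if and only if `F` has two elements.
-/

set_option autoImplicit false

open Polynomial

namespace Pool.Agent.Results.MP_5710e5_nt.FunctionFields

open Pool.Agent.helper20.CF

theorem result (F : Type) [Field F] [Finite F] :
    (∀ f : F[X], f.Monic → ∃ g : F[X], g.Monic ∧ g ≠ f ∧ phi g = phi f) ↔ Nat.card F = 2 := by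
  constructor
  · intro h
    by_contra h2
    have h1 : 1 < Nat.card F := Finite.one_lt_card
    obtain ⟨f, hf, hu⟩ := exists_unique_pre (F := F) (by omega)
    obtain ⟨g, hg, hne, hphi⟩ := h f hf
    exact hne (hu g hg hphi)
  · intro h f hf
    exact exists_partner h f hf

end Pool.Agent.Results.MP_5710e5_nt.FunctionFields
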